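import Pool.Agent.K1H35.JA.Stm

/-!
Project JA, piece REG: a regular jumping language is periodic in every coordinate.
-/

set_option autoImplicit false

namespace Pool.Agent.K1H60.JA

open Pool.Agent.K1H35.JA

theorem exists_word {k : ℕ} (z : Fin k → ℕ) : ∃ w : List (Fin k), pk w = z := by
  refine ⟨(Finsupp.toMultiset (Finsupp.equivFunOnFinite.symm z)).toList, ?_⟩
  funext j
  unfold pk
  rw [← Multiset.coe_count, Multiset.coe_toList, Finsupp.count_toMultiset]
  rfl

theorem pk_append {k : ℕ} (u v : List (Fin k)) : pk (u ++ v) = pk u + pk v := by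
  funext j
  show (u ++ v).count j = u.count j + v.count j
  exact List.count_append

theorem pk_replicate {k : ℕ} (m : ℕ) (i : Fin k) : pk (List.replicate m i) = m • e i := by
  funext j
  show (List.replicate m i).count j = m * (Pi.single i 1 : Fin k → ℕ) j
  rw [List.count_replicate, Pi.single_apply]
  by_cases h : j = i
  · subst h
    simp
  · rw [if_neg h, if_neg (by simpa using fun h' => h h'.symm)]
    simp

theorem t_REG (hJL : S_JL) : S_REG := by
  intro n k A hreg i
  obtain ⟨σ, hσ, M, hM⟩ := hreg
  let s : ℕ → σ := fun t => M.evalFrom M.start (List.replicate t i)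
  have hs : ∀ t u, s (t + u) = M.evalFrom (s t) (List.replicate u i) := by
    intro t u
    show M.evalFrom M.start (List.replicate (t + u) i) = _
    rw [List.replicate_add, DFA.evalFrom_of_append]
  obtain ⟨T, T', hlt, hTT⟩ : ∃ T T' : ℕ, T < T' ∧ s T = s T' := by
    obtain ⟨a, b, hab, h⟩ := Finite.exists_ne_map_eq_of_infinite s
    rcases lt_or_gt_of_ne hab with h1 | h1
    · exact ⟨a, b, h1, h⟩
    · exact ⟨b, a, h1, h.symm⟩
  obtain ⟨P, rfl⟩ : ∃ P, T' = T + P := ⟨T' - T, by omega⟩
  have hper : ∀ t, T ≤ t → s (t + P) = s t := by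
    intro t ht
    obtain ⟨u, rfl⟩ : ∃ u, t = T + u := ⟨t - T, by omega⟩
    have h1 : T + u + P = T + P + u := by omega
    rw [h1, hs, ← hTT, ← hs]
  refine ⟨T, P, by omega, fun x hx => ?_⟩
  obtain ⟨w', hw'⟩ := exists_word (Function.update x i 0)
  have hx' : x i • e i + Function.update x i 0 = x := by
    funext j
    show x i * (Pi.single i 1 : Fin k → ℕ) j + Function.update x i 0 j = x j
    rw [Pi.single_apply]
    by_cases h : j = i
    · subst h
      simp
    · rw [if_neg h, Function.update_of_ne h]
      simp
  have h1 : pk (List.replicate (x i) i ++ w') = x := by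
    rw [pk_append, pk_replicate, hw', hx']
  have h2 : pk (List.replicate (x i + P) i ++ w') = x + P • e i := by
    rw [pk_append, pk_replicate, hw', add_smul]
    have : x i • e i + P • e i + Function.update x i 0 =
        (x i • e i + Function.update x i 0) + P • e i := by abel
    rw [this, hx']
  have h3 := hJL n k A (List.replicate (x i) i ++ w')
  have h4 := hJL n k A (List.replicate (x i + P) i ++ w')
  rw [h1] at h3
  rw [h2] at h4
  rw [← h3, ← h4, ← hM, DFA.mem_accepts, DFA.mem_accepts]
  have h5 : ∀ m, M.eval (List.replicate m i ++ w') = M.evalFrom (s m) w' := by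
    intro m
    show M.evalFrom M.start (List.replicate m i ++ w') = _
    rw [DFA.evalFrom_of_append]
  rw [h5, h5, hper _ hx]

end Pool.Agent.K1H60.JA
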