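import Pool.Agent.K1H35.JA.Stm

/-!
Project JA, piece SEMI: semilinear representation with small constants and periods.
-/

set_option autoImplicit false

namespace Pool.Agent.K1H60.JA

open Pool.Agent.K1H35.JA

variable {n k : ℕ} {A : Aut n k}

theorem vec_le (a : Option (Fin k)) (j : Fin k) : vec a j ≤ 1 := by
  cases a with
  | none => exact Nat.zero_le 1
  | some i =>
    show (Pi.single i 1 : Fin k → ℕ) j ≤ 1
    rw [Pi.single_apply]
    split_ifs
    · exact le_rfl
    · exact Nat.zero_le 1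

theorem RU_bound {q r : Fin n} {x : Fin k → ℕ} {l : ℕ} {U : Finset (Fin n)}
    (h : RU A q x l U r) (j : Fin k) : x j ≤ l := by
  induction h with
  | nil q => exact le_rfl
  | @cons q r s a x l U hs _ ih =>
    have h1 := vec_le a j
    show vec a j + x j ≤ l + 1
    omega

theorem RU_reach {q r : Fin n} {x : Fin k → ℕ} {l : ℕ} {U : Finset (Fin n)}
    (h : RU A q x l U r) : Reach A q x r := by
  induction h with
  | nil q => exact Reach.nil q
  | cons hs _ ih => exact Reach.cons hs ih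

theorem reach_RU {q r : Fin n} {x : Fin k → ℕ} (h : Reach A q x r) :
    ∃ (l : ℕ) (U : Finset (Fin n)), RU A q x l U r := by
  induction h with
  | nil q => exact ⟨0, {q}, RU.nil q⟩
  | cons hs _ ih =>
    obtain ⟨l, U, h⟩ := ih
    exact ⟨_, _, RU.cons hs h⟩

theorem RU_start {q r : Fin n} {x : Fin k → ℕ} {l : ℕ} {U : Finset (Fin n)}
    (h : RU A q x l U r) : q ∈ U := by
  cases h with
  | nil => exact Finset.mem_singleton_self _
  | cons _ _ => exact Finset.mem_insert_self _ _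

theorem RU_append {q r s : Fin n} {x y : Fin k → ℕ} {l m : ℕ} {U W : Finset (Fin n)}
    (h : RU A q x l U r) (h' : RU A r y m W s) :
    ∃ (l' : ℕ) (U' : Finset (Fin n)), W ⊆ U' ∧ RU A q (x + y) l' U' s := by
  induction h with
  | nil q => exact ⟨m, W, Finset.Subset.refl _, by rw [zero_add]; exact h'⟩
  | @cons q r s a x l U hs _ ih =>
    obtain ⟨l', U', h1, h2⟩ := ih h'
    refine ⟨l' + 1, insert q U', h1.trans (Finset.subset_insert _ _), ?_⟩
    rw [add_assoc]
    exact RU.cons hs h2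

theorem RU_insert {q r u : Fin n} {b p : Fin k → ℕ} {l m : ℕ} {U W : Finset (Fin n)}
    (h : RU A q b l U r) (hu : u ∈ U) (h' : RU A u p m W u) :
    ∃ (l' : ℕ) (U' : Finset (Fin n)), U ⊆ U' ∧ RU A q (b + p) l' U' r := by
  induction h with
  | nil q =>
    rw [Finset.mem_singleton] at hu
    subst hu
    refine ⟨m, W, ?_, by rw [zero_add]; exact h'⟩
    rw [Finset.singleton_subset_iff]
    exact RU_start h'
  | @cons q r s a x l U hs ht ih =>
    rw [Finset.mem_insert] at hu
    rcases hu with rfl | hu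
    · obtain ⟨l', U', h1, h2⟩ := RU_append h' (RU.cons hs ht)
      exact ⟨l', U', h1, by rw [add_comm]; exact h2⟩
    · obtain ⟨l', U', h1, h2⟩ := ih hu
      refine ⟨l' + 1, insert q U', Finset.insert_subset_insert _ h1, ?_⟩
      rw [add_assoc]
      exact RU.cons hs h2

theorem RU_closure {q r : Fin n} {U0 : Finset (Fin n)} {y : Fin k → ℕ}
    (hy : y ∈ AddSubmonoid.closure (Cyc A U0)) :
    ∀ (b : Fin k → ℕ) (l : ℕ) (U : Finset (Fin n)), U0 ⊆ U → RU A q b l U r →
      ∃ (l' : ℕ) (U' : Finset (Fin n)), U ⊆ U' ∧ RU A q (b + y) l' U' r := by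
  induction hy using AddSubmonoid.closure_induction with
  | mem x hx =>
    intro b l U hU h
    obtain ⟨u, hu, m, W, -, hW⟩ := hx
    exact RU_insert h (hU hu) hW
  | zero =>
    intro b l U hU h
    exact ⟨l, U, Finset.Subset.refl _, by rw [add_zero]; exact h⟩
  | add x y _ _ hx hy =>
    intro b l U hU h
    obtain ⟨l1, U1, h1, h2⟩ := hx b l U hU h
    obtain ⟨l2, U2, h3, h4⟩ := hy (b + x) l1 U1 (hU.trans h1) h2
    exact ⟨l2, U2, h1.trans h3, by rw [← add_assoc]; exact h4⟩

theorem t_SEMI (hR : S_REM) : S_SEMI := by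
  intro n k A
  refine ⟨{z | ∃ (q : Fin n) (l : ℕ) (U : Finset (Fin n)), A.acc q ∧ l ≤ (n + 1) ^ 2 ∧
    RU A A.start z.1 l U q ∧ z.2 = Cyc A U}, ?_, ?_⟩
  · rintro ⟨b, P⟩ ⟨q, l, U, -, hl, hRU, hP⟩
    refine ⟨fun j => (RU_bound hRU j).trans hl, ?_⟩
    intro p hp j
    simp only at hP
    subst hP
    obtain ⟨u, -, m, W, hm, hW⟩ := hp
    exact (RU_bound hW j).trans hm
  · intro x
    constructor
    · rintro ⟨q, hq, h⟩
      obtain ⟨l, U, hRU⟩ := reach_RU h
      obtain ⟨b, y, l', hl', hRU', hy, rfl⟩ := hR n k A A.start q x l U hRU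
      exact ⟨(b, Cyc A U), ⟨q, l', U, hq, hl', hRU', rfl⟩, y, hy, rfl⟩
    · rintro ⟨⟨b, P⟩, ⟨q, l, U, hq, -, hRU, hP⟩, y, hy, rfl⟩
      simp only at hP
      subst hP
      obtain ⟨l', U', -, h⟩ := RU_closure hy b l U (Finset.Subset.refl _) hRU
      exact ⟨q, hq, RU_reach h⟩

end Pool.Agent.K1H60.JA
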